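import Mathlib

/-! Compactness lemma: approximate stabilisers are close to exact stabilisers, uniformly (MP_971383_co). -/

namespace Pool.Agent.Helper64.SRL

open Filter Topology

theorem abs_compact {E F : Type*} [MetricSpace E] [MetricSpace F] (Y : Set E) (hY : IsCompact Y)
    (K : Set F) (hK : IsCompact K) (δ : F → ℝ) (hδ : Continuous δ) (hδK : ∀ A, δ A ≤ 1 → A ∈ K)
    (f : F → E → E) (hf : Continuous (fun p : F × E => f p.1 p.2)) {η : ℝ} (hη : 0 < η) :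
    ∃ ε > 0, ∀ y ∈ Y, ∃ z ∈ Y, dist z y ≤ η ∧ ∀ A y' y'', δ A ≤ ε → dist y' y ≤ ε →
      dist y'' y ≤ ε → dist (f A y') y'' ≤ ε → ∃ g, δ g ≤ 0 ∧ f g z = z ∧ dist A g ≤ η := by
  by_contra hcon
  push Not at hcon
  have h1 : ∀ n : ℕ, ∃ y ∈ Y, ∀ z ∈ Y, dist z y ≤ η → ∃ A y' y'', δ A ≤ 1 / ((n : ℝ) + 1) ∧
      dist y' y ≤ 1 / ((n : ℝ) + 1) ∧ dist y'' y ≤ 1 / ((n : ℝ) + 1) ∧
      dist (f A y') y'' ≤ 1 / ((n : ℝ) + 1) ∧ ∀ g, δ g ≤ 0 → f g z = z → η < dist A g :=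
    fun n => hcon (1 / ((n : ℝ) + 1)) (by positivity)
  choose y hyY hy using h1
  obtain ⟨z, hzY, φ, hφ, hφz⟩ := hY.tendsto_subseq hyY
  have hev : ∀ᶠ n in atTop, dist z (y (φ n)) ≤ η := by
    have h2 : Tendsto (fun n => dist z (y (φ n))) atTop (𝓝 (dist z z)) :=
      tendsto_const_nhds.dist hφz
    rw [dist_self] at h2
    exact h2.eventually_le_const hη
  obtain ⟨N, hN⟩ := eventually_atTop.1 hev
  have h3 : ∀ n : ℕ, ∃ A y' y'', δ A ≤ 1 / ((φ (n + N) : ℝ) + 1) ∧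
      dist y' (y (φ (n + N))) ≤ 1 / ((φ (n + N) : ℝ) + 1) ∧
      dist y'' (y (φ (n + N))) ≤ 1 / ((φ (n + N) : ℝ) + 1) ∧
      dist (f A y') y'' ≤ 1 / ((φ (n + N) : ℝ) + 1) ∧ ∀ g, δ g ≤ 0 → f g z = z → η < dist A g :=
    fun n => hy (φ (n + N)) z hzY (hN (n + N) (by omega))
  choose A y' y'' hA hy' hy'' hfy hg using h3
  have hu : Tendsto (fun n : ℕ => 1 / ((φ (n + N) : ℝ) + 1)) atTop (𝓝 0) := by
    have := tendsto_one_div_add_atTop_nhds_zero_nat (𝕜 := ℝ)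
    exact this.comp ((hφ.tendsto_atTop).comp (tendsto_add_atTop_nat N))
  have hyN : Tendsto (fun n => y (φ (n + N))) atTop (𝓝 z) :=
    hφz.comp (tendsto_add_atTop_nat N)
  have hy'z : Tendsto y' atTop (𝓝 z) := by
    rw [tendsto_iff_dist_tendsto_zero]
    have h4 : Tendsto (fun n => 1 / ((φ (n + N) : ℝ) + 1) + dist (y (φ (n + N))) z) atTop
        (𝓝 (0 + 0)) := hu.add (tendsto_iff_dist_tendsto_zero.1 hyN)
    rw [add_zero] at h4
    exact squeeze_zero (fun _ => dist_nonneg)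
      (fun n => (dist_triangle _ (y (φ (n + N))) _).trans (add_le_add (hy' n) le_rfl)) h4
  have hy''z : Tendsto y'' atTop (𝓝 z) := by
    rw [tendsto_iff_dist_tendsto_zero]
    have h4 : Tendsto (fun n => 1 / ((φ (n + N) : ℝ) + 1) + dist (y (φ (n + N))) z) atTop
        (𝓝 (0 + 0)) := hu.add (tendsto_iff_dist_tendsto_zero.1 hyN)
    rw [add_zero] at h4
    exact squeeze_zero (fun _ => dist_nonneg)
      (fun n => (dist_triangle _ (y (φ (n + N))) _).trans (add_le_add (hy'' n) le_rfl)) h4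
  have hAK : ∀ n, A n ∈ K := by
    intro n
    apply hδK
    refine (hA n).trans ?_
    rw [div_le_one (by positivity)]
    have : (0 : ℝ) ≤ (φ (n + N) : ℝ) := Nat.cast_nonneg _
    linarith
  obtain ⟨g, -, ψ, hψ, hψg⟩ := hK.tendsto_subseq hAK
  have hδg : δ g ≤ 0 := by
    have h5 : Tendsto (fun n => δ (A (ψ n))) atTop (𝓝 (δ g)) := (hδ.tendsto g).comp hψg
    exact le_of_tendsto_of_tendsto' h5 (hu.comp hψ.tendsto_atTop) (fun n => hA (ψ n))
  have hfg : f g z = z := by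
    have h6 : Tendsto (fun n => f (A (ψ n)) (y' (ψ n))) atTop (𝓝 (f g z)) :=
      (hf.tendsto (g, z)).comp (hψg.prodMk_nhds (hy'z.comp hψ.tendsto_atTop))
    have h7 : Tendsto (fun n => dist (f (A (ψ n)) (y' (ψ n))) (y'' (ψ n))) atTop
        (𝓝 (dist (f g z) z)) := h6.dist (hy''z.comp hψ.tendsto_atTop)
    have h8 : dist (f g z) z ≤ 0 :=
      le_of_tendsto_of_tendsto' h7 (hu.comp hψ.tendsto_atTop) (fun n => hfy (ψ n))
    exact dist_le_zero.1 h8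
  have h9 : Tendsto (fun n => dist (A (ψ n)) g) atTop (𝓝 0) :=
    tendsto_iff_dist_tendsto_zero.1 hψg
  obtain ⟨n, hn⟩ := (h9.eventually_lt_const hη).exists
  exact absurd (hg (ψ n) g hδg hfg) (not_lt.2 hn.le)

end Pool.Agent.Helper64.SRL
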