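import Mathlib
import Pool.Agent.Helper64.SRL.Compact
import Pool.Agent.Helper64.Gauge.Stars

/-! Tensor action on moment vectors and uniform closeness of approximate stabilisers (MP_971383_co). -/

namespace Pool.Agent.Helper64.SRL

open Finset Matrix

variable {N : Type*} [Fintype N] [DecidableEq N] {k : ℕ}

/-- action of a matrix on `k`-fold moments: the moments of `h B` are `tact B` of the moments of `h` -/
def tact (k : ℕ) (B : Matrix N N ℝ) (v : (Fin k → N) → ℝ) : (Fin k → N) → ℝ :=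
  fun w => ∑ w' : Fin k → N, (∏ t, B (w' t) (w t)) * v w'

omit [DecidableEq N] in
lemma prod_vecMul (B : Matrix N N ℝ) (h : N → ℝ) (w : Fin k → N) :
    ∏ t, (h ᵥ* B) (w t) = ∑ w' : Fin k → N, (∏ t, B (w' t) (w t)) * ∏ t, h (w' t) := by
  have h1 : ∏ t, (h ᵥ* B) (w t) = ∏ t, ∑ i, B i (w t) * h i := by
    refine prod_congr rfl fun t _ => ?_
    simp only [vecMul, dotProduct]
    exact sum_congr rfl fun i _ => mul_comm _ _
  rw [h1, prod_univ_sum]
  simp only [Fintype.piFinset_univ]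
  exact sum_congr rfl fun w' _ => prod_mul_distrib

lemma tact_one (v : (Fin k → N) → ℝ) : tact k (1 : Matrix N N ℝ) v = v := by
  funext w
  rw [tact, sum_eq_single w]
  · simp
  · intro w' _ hw'
    obtain ⟨t, ht⟩ := Function.ne_iff.1 hw'
    rw [prod_eq_zero (mem_univ t) (by rw [one_apply_ne ht]), zero_mul]
  · simp

omit [DecidableEq N] in
lemma tact_mul (B C : Matrix N N ℝ) (v : (Fin k → N) → ℝ) :
    tact k (B * C) v = tact k C (tact k B v) := by
  funext w
  simp only [tact]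
  have h1 : ∀ w' : Fin k → N, ∏ t, (B * C) (w' t) (w t) =
      ∑ w'' : Fin k → N, (∏ t, B (w' t) (w'' t)) * ∏ t, C (w'' t) (w t) := by
    intro w'
    simp only [mul_apply]
    rw [prod_univ_sum]
    simp only [Fintype.piFinset_univ]
    exact sum_congr rfl fun w'' _ => prod_mul_distrib
  simp only [h1, sum_mul, mul_sum]
  rw [sum_comm]
  refine sum_congr rfl fun w'' _ => sum_congr rfl fun w' _ => by ring

omit [DecidableEq N] in
lemma continuous_tact : Continuous (fun p : (N → N → ℝ) × ((Fin k → N) → ℝ) =>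
    tact k (Matrix.of p.1) p.2) := by
  refine continuous_pi fun w => ?_
  simp only [tact, Matrix.of_apply]
  fun_prop

/-- block embedding: the first coordinates (`Fin a`) are fixed -/
def blk (a : ℕ) {M : ℕ} (g : Matrix (Fin M) (Fin M) ℝ) : Matrix (Fin a ⊕ Fin M) (Fin a ⊕ Fin M) ℝ :=
  Matrix.fromBlocks 1 0 0 g

lemma blk_one (a M : ℕ) : blk a (1 : Matrix (Fin M) (Fin M) ℝ) = 1 := by
  simp [blk, Matrix.fromBlocks_one]

lemma blk_mul (a : ℕ) {M : ℕ} (g h : Matrix (Fin M) (Fin M) ℝ) :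
    blk a (g * h) = blk a g * blk a h := by
  simp [blk, Matrix.fromBlocks_multiply]

/-- the stabiliser of a moment vector in the orthogonal group -/
def stab (a k M : ℕ) (z : (Fin k → (Fin a ⊕ Fin M)) → ℝ) :
    Subgroup (Matrix.orthogonalGroup (Fin M) ℝ) where
  carrier := {g | tact k (blk a (g : Matrix (Fin M) (Fin M) ℝ)) z = z}
  one_mem' := by
    simp only [Set.mem_ofPred_eq, OneMemClass.coe_one, blk_one, tact_one]
  mul_mem' := by
    intro g h hg hh
    simp only [Set.mem_ofPred_eq] at hg hh ⊢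
    rw [Submonoid.coe_mul, blk_mul, tact_mul, hg, hh]
  inv_mem' := by
    intro g hg
    simp only [Set.mem_ofPred_eq] at hg ⊢
    have h1 : tact k (blk a ((g * g⁻¹ : Matrix.orthogonalGroup (Fin M) ℝ) :
        Matrix (Fin M) (Fin M) ℝ)) z = z := by
      rw [mul_inv_cancel]
      simp only [OneMemClass.coe_one, blk_one, tact_one]
    rw [Submonoid.coe_mul, blk_mul, tact_mul, hg] at h1
    exact h1

lemma mem_stab {a k M : ℕ} {z : (Fin k → (Fin a ⊕ Fin M)) → ℝ}
    {g : Matrix.orthogonalGroup (Fin M) ℝ} :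
    g ∈ stab a k M z ↔ tact k (blk a (g : Matrix (Fin M) (Fin M) ℝ)) z = z := Iff.rfl

/-- Compactness lemma. -/
theorem stab_near (a k M : ℕ) {c η : ℝ} (hη : 0 < η) :
    ∃ ε > 0, ∀ y : (Fin k → (Fin a ⊕ Fin M)) → ℝ, (∀ w, |y w| ≤ c) →
      ∃ z : (Fin k → (Fin a ⊕ Fin M)) → ℝ, (∀ w, |z w| ≤ c) ∧ (∀ w, |z w - y w| ≤ η) ∧
      ∀ (A : Matrix (Fin M) (Fin M) ℝ) (y' y'' : (Fin k → (Fin a ⊕ Fin M)) → ℝ),
        (∀ i j, |(Aᵀ * A - 1) i j| ≤ ε) → (∀ w, |y' w - y w| ≤ ε) → (∀ w, |y'' w - y w| ≤ ε) →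
        (∀ w, |tact k (blk a A) y' w - y'' w| ≤ ε) →
        ∃ g ∈ stab a k M z, ∑ i, ∑ j, (A i j - (g : Matrix (Fin M) (Fin M) ℝ) i j) ^ 2 ≤ η ^ 2 := by
  classical
  obtain ⟨η', hη', hη'1, hη'2⟩ : ∃ η' : ℝ, 0 < η' ∧ η' ≤ η ∧ (M : ℝ) ^ 2 * η' ^ 2 ≤ η ^ 2 := by
    refine ⟨η / (M + 1), by positivity, ?_, ?_⟩
    · rw [div_le_iff₀ (by positivity)]
      nlinarith [Nat.cast_nonneg (α := ℝ) M]
    · rw [div_pow, ← mul_div_assoc, div_le_iff₀ (by positivity)]
      have h1 : (M : ℝ) ^ 2 ≤ (M + 1 : ℝ) ^ 2 := by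
        have : (0 : ℝ) ≤ M := Nat.cast_nonneg M
        nlinarith
      nlinarith [mul_le_mul_of_nonneg_left h1 (sq_nonneg η)]
  -- the defect
  set δ : (Fin M → Fin M → ℝ) → ℝ := fun A =>
    ‖fun i j => ((Matrix.of A)ᵀ * Matrix.of A - 1 : Matrix (Fin M) (Fin M) ℝ) i j‖ with hδdef
  have hδc : Continuous δ := by
    apply Continuous.norm
    refine continuous_pi fun i => continuous_pi fun j => ?_
    simp only [Matrix.sub_apply, Matrix.mul_apply, Matrix.transpose_apply, Matrix.of_apply]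
    fun_prop
  have hY : IsCompact (Set.pi Set.univ (fun _ : (Fin k → (Fin a ⊕ Fin M)) =>
      Set.Icc (-c : ℝ) c)) := isCompact_univ_pi fun _ => isCompact_Icc
  have hK : IsCompact (Set.pi Set.univ (fun _ : Fin M => Set.pi Set.univ (fun _ : Fin M =>
      Set.Icc (-2 : ℝ) 2))) := isCompact_univ_pi fun _ => isCompact_univ_pi fun _ => isCompact_Icc
  have hδK : ∀ A, δ A ≤ 1 → A ∈ Set.pi Set.univ (fun _ : Fin M => Set.pi Set.univ
      (fun _ : Fin M => Set.Icc (-2 : ℝ) 2)) := by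
    intro A hA i _ j _
    have h1 : |((Matrix.of A)ᵀ * Matrix.of A - 1 : Matrix (Fin M) (Fin M) ℝ) j j| ≤ 1 := by
      have h2 := (pi_norm_le_iff_of_nonneg zero_le_one).1 ((pi_norm_le_iff_of_nonneg
        zero_le_one).1 hA j) j
      exact h2
    simp only [Matrix.sub_apply, Matrix.one_apply_eq, Matrix.mul_apply, Matrix.transpose_apply,
      Matrix.of_apply] at h1
    have h3 := (abs_le.1 h1).2
    have h4 : A i j * A i j ≤ ∑ l, A l j * A l j :=
      single_le_sum (f := fun l => A l j * A l j) (fun l _ => mul_self_nonneg _) (mem_univ i)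
    have h5 : A i j ^ 2 ≤ 2 ^ 2 := by nlinarith
    exact abs_le.1 (abs_le_of_sq_le_sq h5 (by norm_num))
  have hfc : Continuous (fun p : (Fin M → Fin M → ℝ) × ((Fin k → (Fin a ⊕ Fin M)) → ℝ) =>
      tact k (blk a (Matrix.of p.1)) p.2) := by
    refine continuous_pi fun w => ?_
    simp only [tact]
    refine continuous_finsetSum _ fun w' _ => ?_
    refine Continuous.mul ?_ (by fun_prop)
    refine continuous_finsetProd _ fun t _ => ?_
    rcases h1 : w' t with i | i <;> rcases h2 : w t with j | j <;>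
      simp only [blk, Matrix.fromBlocks_apply₁₁, Matrix.fromBlocks_apply₁₂,
        Matrix.fromBlocks_apply₂₁, Matrix.fromBlocks_apply₂₂, Matrix.of_apply] <;> fun_prop
  obtain ⟨ε, hε, H⟩ := abs_compact _ hY _ hK δ hδc hδK
    (fun A v => tact k (blk a (Matrix.of A)) v) hfc hη'
  refine ⟨ε, hε, fun y hy => ?_⟩
  obtain ⟨z, hz, hzy, Hz⟩ := H y (fun w _ => abs_le.1 (hy w))
  refine ⟨z, fun w => abs_le.2 (hz w (Set.mem_univ _)), fun w => ?_, ?_⟩
  · have := (dist_pi_le_iff hη'.le).1 hzy w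
    rw [Real.dist_eq] at this
    exact this.trans hη'1
  · intro A y' y'' hA hy' hy'' hAy
    have hdist : ∀ u v : (Fin k → (Fin a ⊕ Fin M)) → ℝ, (∀ w, |u w - v w| ≤ ε) → dist u v ≤ ε := by
      intro u v huv
      rw [dist_pi_le_iff hε.le]
      intro w
      rw [Real.dist_eq]; exact huv w
    obtain ⟨g, hg0, hgz, hgA⟩ := Hz (fun i j => A i j) y' y''
      ((pi_norm_le_iff_of_nonneg hε.le).2 fun i => (pi_norm_le_iff_of_nonneg hε.le).2 fun j =>
        hA i j) (hdist _ _ hy') (hdist _ _ hy'') (hdist _ _ hAy)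
    have hgo : (Matrix.of g)ᵀ * Matrix.of g = 1 := by
      have h0 : δ g = 0 := le_antisymm hg0 (norm_nonneg _)
      have h1 := norm_eq_zero.1 h0
      ext i j
      have h2 := congrFun (congrFun h1 i) j
      simp only [Matrix.sub_apply, Pi.zero_apply] at h2
      linarith
    refine ⟨⟨Matrix.of g, ?_⟩, ?_, ?_⟩
    · rw [Matrix.mem_orthogonalGroup_iff']
      exact hgo
    · exact hgz
    · have h6 : ∀ i j, (A i j - (Matrix.of g) i j) ^ 2 ≤ η' ^ 2 := by
        intro i j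
        have := (dist_pi_le_iff hη'.le).1 ((dist_pi_le_iff hη'.le).1 hgA i) j
        rw [Real.dist_eq] at this
        exact sq_le_sq' (abs_le.1 this).1 (abs_le.1 this).2
      calc ∑ i, ∑ j, (A i j - (Matrix.of g) i j) ^ 2 ≤ ∑ i : Fin M, ∑ j : Fin M, η' ^ 2 :=
            sum_le_sum fun i _ => sum_le_sum fun j _ => h6 i j
        _ = (M : ℝ) ^ 2 * η' ^ 2 := by simp; ring
        _ ≤ η ^ 2 := hη'2

/-- Frobenius distance of orthogonal matrices. -/
noncomputable def fdist {M : ℕ} (g h : Matrix.orthogonalGroup (Fin M) ℝ) : ℝ :=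
  Real.sqrt (∑ i, ∑ j, ((g : Matrix (Fin M) (Fin M) ℝ) i j - (h : Matrix (Fin M) (Fin M) ℝ) i j) ^ 2)

lemma sum_sq_eq_trace {M : ℕ} (A : Matrix (Fin M) (Fin M) ℝ) :
    ∑ i, ∑ j, A i j ^ 2 = (A * Aᵀ).trace := by
  simp only [Matrix.trace, Matrix.diag, Matrix.mul_apply, Matrix.transpose_apply]
  exact sum_congr rfl fun i _ => sum_congr rfl fun j _ => sq _

lemma sum_sq_mul_right {M : ℕ} (A : Matrix (Fin M) (Fin M) ℝ) (g : Matrix.orthogonalGroup (Fin M) ℝ) :
    ∑ i, ∑ j, (A * (g : Matrix (Fin M) (Fin M) ℝ)) i j ^ 2 = ∑ i, ∑ j, A i j ^ 2 := by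
  have hg : (g : Matrix (Fin M) (Fin M) ℝ) * (g : Matrix (Fin M) (Fin M) ℝ)ᵀ = 1 := by
    have := g.2
    rw [Matrix.mem_orthogonalGroup_iff] at this
    exact this
  rw [sum_sq_eq_trace, sum_sq_eq_trace, Matrix.transpose_mul, Matrix.mul_assoc,
    ← Matrix.mul_assoc (g : Matrix (Fin M) (Fin M) ℝ), hg, Matrix.one_mul]

lemma sum_sq_mul_left {M : ℕ} (A : Matrix (Fin M) (Fin M) ℝ) (g : Matrix.orthogonalGroup (Fin M) ℝ) :
    ∑ i, ∑ j, ((g : Matrix (Fin M) (Fin M) ℝ) * A) i j ^ 2 = ∑ i, ∑ j, A i j ^ 2 := by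
  have hg : (g : Matrix (Fin M) (Fin M) ℝ)ᵀ * (g : Matrix (Fin M) (Fin M) ℝ) = 1 := by
    have := g.2
    rw [Matrix.mem_orthogonalGroup_iff'] at this
    exact this
  rw [sum_sq_eq_trace, sum_sq_eq_trace, Matrix.transpose_mul, ← Matrix.mul_assoc,
    Matrix.trace_mul_comm, ← Matrix.mul_assoc, ← Matrix.mul_assoc, hg, Matrix.one_mul]

lemma fdist_self {M : ℕ} (g : Matrix.orthogonalGroup (Fin M) ℝ) : fdist g g = 0 := by
  simp [fdist]

lemma fdist_symm {M : ℕ} (g h : Matrix.orthogonalGroup (Fin M) ℝ) : fdist g h = fdist h g := by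
  unfold fdist
  congr 1
  exact sum_congr rfl fun i _ => sum_congr rfl fun j _ => by ring

lemma fdist_left {M : ℕ} (k g h : Matrix.orthogonalGroup (Fin M) ℝ) :
    fdist (k * g) (k * h) = fdist g h := by
  unfold fdist
  congr 1
  have := sum_sq_mul_left ((g : Matrix (Fin M) (Fin M) ℝ) - (h : Matrix (Fin M) (Fin M) ℝ)) k
  rw [Matrix.mul_sub] at this
  exact this

lemma fdist_right {M : ℕ} (k g h : Matrix.orthogonalGroup (Fin M) ℝ) :
    fdist (g * k) (h * k) = fdist g h := by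
  unfold fdist
  congr 1
  have := sum_sq_mul_right ((g : Matrix (Fin M) (Fin M) ℝ) - (h : Matrix (Fin M) (Fin M) ℝ)) k
  rw [Matrix.sub_mul] at this
  exact this

lemma fdist_tri {M : ℕ} (g h k : Matrix.orthogonalGroup (Fin M) ℝ) :
    fdist g k ≤ fdist g h + fdist h k := by
  have key : ∀ a b : Fin M × Fin M → ℝ, Real.sqrt (∑ p, (a p + b p) ^ 2) ≤
      Real.sqrt (∑ p, a p ^ 2) + Real.sqrt (∑ p, b p ^ 2) := by
    intro a b
    have := norm_add_le (WithLp.toLp 2 a : EuclideanSpace ℝ (Fin M × Fin M)) (WithLp.toLp 2 b)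
    rw [EuclideanSpace.norm_eq, EuclideanSpace.norm_eq, EuclideanSpace.norm_eq] at this
    simpa using this
  have h1 := key (fun p => (g : Matrix (Fin M) (Fin M) ℝ) p.1 p.2 - (h : Matrix (Fin M) (Fin M) ℝ) p.1 p.2)
    (fun p => (h : Matrix (Fin M) (Fin M) ℝ) p.1 p.2 - (k : Matrix (Fin M) (Fin M) ℝ) p.1 p.2)
  simp only [Fintype.sum_prod_type, sub_add_sub_cancel] at h1
  exact h1

/-- The Frobenius distance is a bi-invariant pseudo-distance on every subgroup. -/
theorem biInv_fdist {M : ℕ} (H : Subgroup (Matrix.orthogonalGroup (Fin M) ℝ)) :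
    Pool.Agent.Helper64.Gauge.BiInv (fun g h : H => fdist (g : Matrix.orthogonalGroup (Fin M) ℝ) h) where
  self := fun _ => fdist_self _
  symm := fun _ _ => fdist_symm _ _
  tri := fun _ _ _ => fdist_tri _ _ _
  left := fun _ _ _ => fdist_left _ _ _
  right := fun _ _ _ => fdist_right _ _ _

/-- Frobenius length -/
noncomputable def flen {M : ℕ} (g : Matrix.orthogonalGroup (Fin M) ℝ) : ℝ := fdist g 1

lemma flen_one {M : ℕ} : flen (1 : Matrix.orthogonalGroup (Fin M) ℝ) = 0 := fdist_self 1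

lemma flen_mul_inv {M : ℕ} (g h : Matrix.orthogonalGroup (Fin M) ℝ) : flen (g * h⁻¹) = fdist g h := by
  rw [flen, ← fdist_right h (g * h⁻¹) 1, inv_mul_cancel_right, one_mul]

lemma flen_inv_mul {M : ℕ} (g h : Matrix.orthogonalGroup (Fin M) ℝ) : flen (g⁻¹ * h) = fdist g h := by
  rw [flen, ← fdist_left g (g⁻¹ * h) 1, mul_inv_cancel_left, mul_one, fdist_symm]

lemma flen_inv {M : ℕ} (g : Matrix.orthogonalGroup (Fin M) ℝ) : flen g⁻¹ = flen g := by
  have := flen_mul_inv (1 : Matrix.orthogonalGroup (Fin M) ℝ) g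
  rw [one_mul, fdist_symm] at this
  exact this

lemma flen_mul {M : ℕ} (g h : Matrix.orthogonalGroup (Fin M) ℝ) : flen (g * h) ≤ flen g + flen h := by
  have h1 := fdist_tri (g * h) h 1
  have h2 := fdist_right h g 1
  rw [one_mul] at h2
  rw [h2] at h1
  exact h1

lemma flen_conj {M : ℕ} (g h : Matrix.orthogonalGroup (Fin M) ℝ) : flen (h * g * h⁻¹) = flen g := by
  rw [flen_mul_inv]
  have := fdist_left h g 1
  rw [mul_one] at this
  exact this

/-- a length function gives a bi-invariant pseudo-distance -/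
theorem biInv_of_length {G : Type*} [Group G] {nrm : G → ℝ} (one : nrm 1 = 0)
    (inv : ∀ g, nrm g⁻¹ = nrm g) (mul : ∀ g h, nrm (g * h) ≤ nrm g + nrm h)
    (conj : ∀ g h, nrm (h * g * h⁻¹) = nrm g) :
    Pool.Agent.Helper64.Gauge.BiInv (fun g h : G => nrm (g * h⁻¹)) where
  self := fun g => by rw [mul_inv_cancel, one]
  symm := fun g h => by rw [← inv (g * h⁻¹)]; congr 1; group
  tri := fun g h k => by
    have := mul (g * h⁻¹) (h * k⁻¹)
    have e : g * h⁻¹ * (h * k⁻¹) = g * k⁻¹ := by group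
    rw [e] at this
    exact this
  left := fun k g h => by
    have := conj (g * h⁻¹) k
    rw [← this]; congr 1; group
  right := fun k g h => by congr 1; group

end Pool.Agent.Helper64.SRL
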